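import Pool.Agent.H79.EF.Defs

/-!
# Erdős–Frankl, `k = 3`: the finite check (helper91)

`fin_small`: for `t < 100` the state `(t, α₁(t))`, `α₁(t) = 7 (t-1) / 11 - 1`, is finished
(`Fin5`), by one pass through two rows of Pascal's triangle, evaluated by the kernel.
-/

set_option autoImplicit false

open Finset

namespace Pool.Agent.H91.EF

open Pool.Agent.H93.EF (Nb)
open Pool.Agent.H79.EF

/-- `nm n j = Σ_{i < j} C(n,i)` -/
def nm (n j : ℕ) : ℕ := ∑ i ∈ range j, n.choose i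

theorem Nb_nat (n j : ℕ) : Nb n (j : ℤ) = (nm n (j + 1) : ℝ) := by
  unfold Nb nm
  have h : ((j : ℤ) + 1).toNat = j + 1 := by omega
  rw [h]; push_cast; rfl

theorem Nb_nat_succ (n j : ℕ) : Nb n ((j : ℤ) + 1) = (nm n (j + 2) : ℝ) := by
  unfold Nb nm
  have h : ((j : ℤ) + 1 + 1).toNat = j + 2 := by omega
  rw [h]; push_cast; rfl

theorem Nb_nat_pred (n j : ℕ) : Nb n ((j : ℤ) - 1) = (nm n j : ℝ) := by
  unfold Nb nm
  have h : ((j : ℤ) - 1 + 1).toNat = j := by omega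
  rw [h]; push_cast; rfl

theorem nm_succ (n j : ℕ) : nm n (j + 1) = nm n j + n.choose j := by
  unfold nm
  rw [sum_range_succ]

theorem choose_step (n j : ℕ) : n.choose j * (n - j) / (j + 1) = n.choose (j + 1) := by
  rw [← Nat.choose_succ_right_eq]
  exact Nat.mul_div_cancel _ (Nat.succ_pos j)

/-- single pass through the row `n` of Pascal's triangle -/
noncomputable def loop (n : ℕ) (chk fin : ℕ → ℕ → ℕ → Bool) (f : ℕ) : ℕ → ℕ → ℕ → ℕ → Bool :=
  Nat.rec (motive := fun _ => ℕ → ℕ → ℕ → ℕ → Bool)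
    (fun j C Nm N0 => fin Nm N0 (Nat.add N0 (Nat.div (Nat.mul C (Nat.sub n j)) (Nat.succ j))))
    (fun _ ih j C Nm N0 =>
      cond (chk Nm N0 (Nat.add N0 (Nat.div (Nat.mul C (Nat.sub n j)) (Nat.succ j))))
        (ih (Nat.succ j) (Nat.div (Nat.mul C (Nat.sub n j)) (Nat.succ j)) N0
          (Nat.add N0 (Nat.div (Nat.mul C (Nat.sub n j)) (Nat.succ j)))) false) f

theorem loop_spec (n : ℕ) (chk fin : ℕ → ℕ → ℕ → Bool) : ∀ (f j : ℕ),
    loop n chk fin f j (n.choose j) (nm n j) (nm n (j + 1)) = true →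
    (∀ i < f, chk (nm n (j + i)) (nm n (j + i + 1)) (nm n (j + i + 2)) = true) ∧
      fin (nm n (j + f)) (nm n (j + f + 1)) (nm n (j + f + 2)) = true := by
  intro f
  induction f with
  | zero =>
    intro j h
    refine ⟨fun i hi => absurd hi (Nat.not_lt_zero i), ?_⟩
    have h1 : fin (nm n j) (nm n (j + 1))
        (nm n (j + 1) + n.choose j * (n - j) / (j + 1)) = true := h
    rw [choose_step, ← nm_succ] at h1
    exact h1
  | succ f ih =>
    intro j h
    have h1 : cond (chk (nm n j) (nm n (j + 1)) (nm n (j + 1) + n.choose j * (n - j) / (j + 1)))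
        (loop n chk fin f (j + 1) (n.choose j * (n - j) / (j + 1)) (nm n (j + 1))
          (nm n (j + 1) + n.choose j * (n - j) / (j + 1))) false = true := h
    rw [choose_step, ← nm_succ] at h1
    cases hc : chk (nm n j) (nm n (j + 1)) (nm n (j + 1 + 1)) with
    | false =>
      rw [hc] at h1
      exact absurd h1 (by simp)
    | true =>
      rw [hc] at h1
      have h2 := ih (j + 1) h1
      refine ⟨?_, ?_⟩
      · intro i hi
        rcases Nat.eq_zero_or_pos i with h0 | h0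
        · subst h0
          exact hc
        · have h3 := h2.1 (i - 1) (by omega)
          have e : j + 1 + (i - 1) = j + i := by omega
          rw [e] at h3
          exact h3
      · have e : j + 1 + f = j + (f + 1) := by omega
        have h3 := h2.2
        rw [e] at h3
        exact h3

/-- `HH` with `x = 17/72`, `k = 3`, cleared of denominators -/
def hh (Nm N0 Np : ℕ) : Bool :=
  Nat.ble (Nat.pow (Nat.mul 89 N0) 3)
    (Nat.mul (Nat.add (Nat.mul 72 N0) (Nat.mul 17 Np))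
      (Nat.pow (Nat.add (Nat.mul 72 N0) (Nat.mul 17 Nm)) 2))

/-- ten times the value of the majorant at `c + 1` -/
def hs (Nm N0 Np : ℕ) : ℕ :=
  Nat.add (Nat.mul 10 Np) (Nat.sub (Nat.succ (Nat.div (Nat.sub (Nat.succ (Nat.div
    (Nat.mul 10 (Nat.pow (Nat.mul 89 N0) 3))
    (Nat.pow (Nat.add (Nat.mul 72 N0) (Nat.mul 17 Nm)) 2))) (Nat.mul 720 N0)) 17))
    (Nat.mul 10 Np))

/-- the conditions of `Fin5` at the cut -/
def fin2 (A0 Ap Nm N0 Np H : ℕ) : Bool :=
  cond (Nat.ble (Nat.mul 10 Np) H)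
    (cond (Nat.ble (Nat.mul Nm H) (Nat.mul 10 (Nat.mul N0 N0)))
      (cond (Nat.ble (Nat.mul 17 (Nat.add (Nat.mul 10 Ap) H))
          (Nat.add (Nat.mul 720 A0) (Nat.mul 170 Np)))
        (cond (Nat.ble (Nat.mul 10 (Nat.pow (Nat.mul 89 N0) 3))
          (Nat.mul (Nat.add (Nat.mul 720 N0) (Nat.mul 17 H))
            (Nat.pow (Nat.add (Nat.mul 72 N0) (Nat.mul 17 Nm)) 2)))
          (cond (Nat.ble 1 N0) (Nat.ble 1 H) false) false) false) false) false

/-- the complete check -/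
noncomputable def chkT (t c al : ℕ) : Bool :=
  cond (Nat.ble al (Nat.mul 3 c))
    (loop (Nat.add t (Nat.mul 3 c)) (fun _ _ _ => true)
      (fun Am A0 Ap =>
        cond (Nat.ble (Nat.mul 17 Ap) (Nat.mul 72 A0))
          (cond (Nat.ble (Nat.mul 72 Am) (Nat.mul 17 A0))
            (cond (Nat.beq al (Nat.mul 3 c)) true
              (loop (Nat.add t al) hh (fun Nm N0 Np => fin2 A0 Ap Nm N0 Np (hs Nm N0 Np))
                c 0 1 0 1)) false) false)
      c 0 1 0 1) false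

theorem cond_true {a b : Bool} (h : cond a b false = true) : a = true ∧ b = true := by
  cases a with
  | false => exact absurd h (by simp)
  | true => exact ⟨rfl, h⟩

theorem fin2_spec {A0 Ap Nm N0 Np H : ℕ} (h : fin2 A0 Ap Nm N0 Np H = true) :
    10 * Np ≤ H ∧ Nm * H ≤ 10 * (N0 * N0) ∧ 17 * (10 * Ap + H) ≤ 720 * A0 + 170 * Np ∧
      10 * (89 * N0) ^ 3 ≤ (720 * N0 + 17 * H) * (72 * N0 + 17 * Nm) ^ 2 ∧ 1 ≤ N0 ∧ 1 ≤ H := by
  unfold fin2 at h
  obtain ⟨h1, h⟩ := cond_true h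
  obtain ⟨h2, h⟩ := cond_true h
  obtain ⟨h3, h⟩ := cond_true h
  obtain ⟨h4, h⟩ := cond_true h
  obtain ⟨h5, h6⟩ := cond_true h
  exact ⟨Nat.le_of_ble_eq_true h1, Nat.le_of_ble_eq_true h2, Nat.le_of_ble_eq_true h3,
    Nat.le_of_ble_eq_true h4, Nat.le_of_ble_eq_true h5, Nat.le_of_ble_eq_true h6⟩

theorem hh_spec {Nm N0 Np : ℕ} (h : hh Nm N0 Np = true) :
    (89 * N0) ^ 3 ≤ (72 * N0 + 17 * Np) * (72 * N0 + 17 * Nm) ^ 2 :=
  Nat.le_of_ble_eq_true h

theorem loop_start {n : ℕ} {chk fin : ℕ → ℕ → ℕ → Bool} {f : ℕ}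
    (h : loop n chk fin f 0 1 0 1 = true) :
    (∀ i < f, chk (nm n i) (nm n (i + 1)) (nm n (i + 2)) = true) ∧
      fin (nm n f) (nm n (f + 1)) (nm n (f + 2)) = true := by
  have h1 : loop n chk fin f 0 (n.choose 0) (nm n 0) (nm n (0 + 1)) = true := by
    have e1 : nm n 0 = 0 := by simp [nm]
    have e2 : nm n (0 + 1) = 1 := by simp [nm]
    rw [e1, e2, Nat.choose_zero_right]
    exact h
  have h2 := loop_spec n chk fin f 0 h1
  simp only [zero_add] at h2
  exact h2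

theorem chkT_spec {t c al : ℕ} (h : chkT t c al = true) :
    ∃ ρ : ℝ, Fin5 3 t al c (17 / 72) ρ := by
  unfold chkT at h
  obtain ⟨h0, h⟩ := cond_true h
  have h0' : al ≤ 3 * c := Nat.le_of_ble_eq_true h0
  have h1 := (loop_start h).2
  obtain ⟨h2, h1⟩ := cond_true h1
  obtain ⟨h3, h1⟩ := cond_true h1
  have h2' : 17 * nm (t + 3 * c) (c + 2) ≤ 72 * nm (t + 3 * c) (c + 1) :=
    Nat.le_of_ble_eq_true h2
  have h3' : 72 * nm (t + 3 * c) c ≤ 17 * nm (t + 3 * c) (c + 1) :=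
    Nat.le_of_ble_eq_true h3
  have a1 : (17 / 72 : ℝ) * Nb (t + 3 * c) ((c : ℤ) + 1) ≤ Nb (t + 3 * c) c := by
    rw [Nb_nat_succ, Nb_nat]
    have : (17 : ℝ) * nm (t + 3 * c) (c + 2) ≤ 72 * nm (t + 3 * c) (c + 1) := by
      exact_mod_cast h2'
    linarith
  have a2 : Nb (t + 3 * c) ((c : ℤ) - 1) ≤ (17 / 72 : ℝ) * Nb (t + 3 * c) c := by
    rw [Nb_nat_pred, Nb_nat]
    have : (72 : ℝ) * nm (t + 3 * c) c ≤ 17 * nm (t + 3 * c) (c + 1) := by
      exact_mod_cast h3'
    linarith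
  cases he : Nat.beq al (Nat.mul 3 c) with
  | true =>
    have e : al = 3 * c := Nat.eq_of_beq_eq_true he
    exact ⟨1, h0', a1, a2, Or.inl e⟩
  | false =>
    rw [he, cond_false] at h1
    obtain ⟨h5, h6⟩ := loop_start h1
    have h7 := fin2_spec h6
    change _ at h7
    set N : ℕ → ℕ := nm (t + al) with hN
    set A : ℕ → ℕ := nm (t + 3 * c) with hA
    have e1 : nm (Nat.add t al) = N := rfl
    have e2 : nm (Nat.add t (Nat.mul 3 c)) = A := rfl
    rw [e1, e2] at h7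
    set H := hs (N c) (N (c + 1)) (N (c + 2)) with hH
    obtain ⟨b1, b2, b3, b4, b5, b6⟩ := h7
    have c1 : (10 : ℝ) * N (c + 2) ≤ H := by exact_mod_cast b1
    have c2 : (N c : ℝ) * H ≤ 10 * (N (c + 1) * N (c + 1)) := by exact_mod_cast b2
    have c3 : (17 : ℝ) * (10 * A (c + 2) + H) ≤ 720 * A (c + 1) + 170 * N (c + 2) := by
      exact_mod_cast b3
    have c4 : (10 : ℝ) * (89 * N (c + 1)) ^ 3 ≤
        (720 * N (c + 1) + 17 * H) * (72 * N (c + 1) + 17 * N c) ^ 2 := by exact_mod_cast b4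
    have c5 : (0 : ℝ) < N (c + 1) := by exact_mod_cast b5
    have c6 : (0 : ℝ) < H := by exact_mod_cast b6
    have hdiv : (N (c + 1) : ℝ) / (10 * N (c + 1) / H) = H / 10 := by
      field_simp
    refine ⟨10 * N (c + 1) / H, h0', a1, a2, Or.inr ⟨by positivity, ?_, ?_, ?_, ?_, ?_⟩⟩
    · rw [Nb_nat_succ, Nb_nat, ← hN, div_mul_eq_mul_div, div_le_iff₀ c6]
      nlinarith
    · rw [Nb_nat_pred, Nb_nat, ← hN, div_mul_eq_mul_div, le_div_iff₀ c6]
      linarith
    · rw [Nb_nat_succ, Nb_nat_succ, Nb_nat, Nb_nat, ← hN, ← hA, hdiv]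
      linarith
    · intro j hj
      have h8 := hh_spec (h5 j hj)
      rw [e1] at h8
      unfold HHj
      rw [Nb_nat_succ, Nb_nat_pred, Nb_nat, ← hN]
      have c8 : (89 * N (j + 1) : ℝ) ^ 3 ≤
        (72 * N (j + 1) + 17 * N (j + 2)) * (72 * N (j + 1) + 17 * N j) ^ 2 := by
        exact_mod_cast h8
      have e3 : ((1 + 17 / 72) * (N (j + 1) : ℝ)) ^ 3 = (89 * N (j + 1) : ℝ) ^ 3 / 72 ^ 3 := by
        ring
      have e4 : ((N (j + 1) : ℝ) + 17 / 72 * N (j + 2)) *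
          (N (j + 1) + 17 / 72 * N j) ^ (3 - 1) =
          (72 * N (j + 1) + 17 * N (j + 2)) * (72 * N (j + 1) + 17 * N j) ^ 2 / 72 ^ 3 := by
        norm_num
        ring
      rw [e3, e4]
      exact div_le_div_of_nonneg_right c8 (by positivity)
    · rw [Nb_nat_pred, Nb_nat, ← hN, hdiv]
      have e3 : ((1 + 17 / 72) * (N (c + 1) : ℝ)) ^ 3 =
          10 * (89 * N (c + 1) : ℝ) ^ 3 / (10 * 72 ^ 3) := by
        ring
      have e4 : ((N (c + 1) : ℝ) + 17 / 72 * (H / 10)) *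
          (N (c + 1) + 17 / 72 * N c) ^ (3 - 1) =
          (720 * N (c + 1) + 17 * H) * (72 * N (c + 1) + 17 * N c) ^ 2 / (10 * 72 ^ 3) := by
        norm_num
        ring
      rw [e3, e4]
      exact div_le_div_of_nonneg_right c4 (by positivity)

/-- the critical level for `t < 100` -/
def cf (t : ℕ) : ℕ :=
  cond (Nat.beq t 3) 0 (cond (Nat.beq t 5) 1 (Nat.div (Nat.sub (Nat.mul 17 t) 8) 38))

/-- the level `α₁` -/
def af (t : ℕ) : ℕ := Nat.sub (Nat.div (Nat.mul 7 (Nat.sub t 1)) 11) 1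

noncomputable def chkAll (T : ℕ) : Bool :=
  Nat.rec (motive := fun _ => Bool) true (fun t ih => cond (chkT t (cf t) (af t)) ih false) T

theorem chkAll_spec : ∀ (T : ℕ), chkAll T = true → ∀ t < T, chkT t (cf t) (af t) = true := by
  intro T
  induction T with
  | zero => intro _ t ht; exact absurd ht (Nat.not_lt_zero t)
  | succ T ih =>
    intro h t ht
    have h1 : cond (chkT T (cf T) (af T)) (chkAll T) false = true := h
    obtain ⟨h2, h3⟩ := cond_true h1
    rcases Nat.lt_or_ge t T with h4 | h4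
    · exact ih h3 t h4
    · have : t = T := by omega
      subst this
      exact h2

theorem chk100 : chkAll 100 = true := by decide +kernel

/-- **Small `t`.** -/
theorem fin_small (t : ℕ) (h : t < 100) :
    ∃ (c : ℕ) (ρ : ℝ), Fin5 3 t (7 * (t - 1) / 11 - 1) c (17 / 72) ρ :=
  ⟨cf t, chkT_spec (chkAll_spec 100 chk100 t h)⟩

end Pool.Agent.H91.EF
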